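import Pool.Agent.W763.PB.Stm

/-!
# PB-R0: elementary facts on `q`
-/

set_option autoImplicit false

namespace Pool.Agent.W359.PB

open Pool.Agent.W763.PB

theorem r0 : S_R0 := by
  intro k hk m hm
  have hk0 : (0 : ℝ) < k := by linarith
  have hk1 : (1 : ℝ) < k := by linarith
  have hm' : (0 : ℝ) < m := by exact_mod_cast hm
  have hpow : ∀ n : ℕ, (qq k m) ^ n = k ^ (-((n : ℝ) / (2 * (m : ℝ)))) := by
    intro n
    unfold qq
    rw [← Real.rpow_natCast, ← Real.rpow_mul hk0.le]
    congr 1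
    ring
  refine ⟨?_, ?_, hpow, ?_, ?_⟩
  · exact Real.rpow_pos_of_pos hk0 _
  · refine Real.rpow_lt_one_of_one_lt_of_neg hk1 ?_
    have : (0 : ℝ) < 1 / (2 * (m : ℝ)) := by positivity
    linarith
  · rw [hpow]
    have e : -(((2 * m : ℕ) : ℝ) / (2 * (m : ℝ))) = -1 := by
      push_cast
      rw [div_self (by positivity)]
    rw [e, Real.rpow_neg_one]
  · rw [hpow]
    congr 1
    push_cast
    field_simp
    norm_num

end Pool.Agent.W359.PB
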